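import Mathlib

/-!
# Project PS (MP_4afa08_nt): the numbers from pairs of primes are solutions
-/

set_option autoImplicit false

namespace Pool.Agent.Helper18.PS

theorem conv (m q : ℕ) (hq : q.Prime) (hq2 : q ≠ 2) (hp : (2 * q - 1).Prime) (hm : ¬ (2 * q - 1) ∣ m)
    (hs : ¬ q ∣ ArithmeticFunction.sigma 1 m)
    (h : (Even (ArithmeticFunction.sigma 1 m) ∧ Nat.totient (ArithmeticFunction.sigma 1 m) = Nat.totient m) ∨
      (Odd (ArithmeticFunction.sigma 1 m) ∧ Nat.totient (ArithmeticFunction.sigma 1 m) = 2 * Nat.totient m)) :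
    Nat.totient (ArithmeticFunction.sigma 1 (m * (2 * q - 1))) = Nat.totient (m * (2 * q - 1)) := by
  have hq1 : 2 ≤ q := hq.two_le
  have hcop : Nat.Coprime m (2 * q - 1) := ((Nat.Prime.coprime_iff_not_dvd hp).2 hm).symm
  have h1 : ArithmeticFunction.sigma 1 (m * (2 * q - 1)) =
      ArithmeticFunction.sigma 1 m * ArithmeticFunction.sigma 1 (2 * q - 1) :=
    ArithmeticFunction.isMultiplicative_sigma.map_mul_of_coprime hcop
  have h2 : ArithmeticFunction.sigma 1 (2 * q - 1) = 2 * q := by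
    rw [ArithmeticFunction.sigma_one_apply, Nat.Prime.divisors hp, Finset.sum_pair hp.one_lt.ne]
    omega
  rw [h1, h2]
  set s := ArithmeticFunction.sigma 1 m with hsdef
  have hcop2 : Nat.Coprime (2 * s) q := by
    refine ((Nat.Prime.coprime_iff_not_dvd hq).2 ?_).symm
    intro hd
    rcases (Nat.Prime.dvd_mul hq).1 hd with h3 | h3
    · exact hq2 ((Nat.prime_dvd_prime_iff_eq hq Nat.prime_two).1 h3)
    · exact hs h3
  have h3 : s * (2 * q) = (2 * s) * q := by ring
  rw [h3, Nat.totient_mul hcop2, Nat.totient_mul hcop, Nat.totient_prime hq, Nat.totient_prime hp]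
  have h4 : Nat.totient (2 * s) = 2 * Nat.totient m := by
    rcases h with ⟨he, h⟩ | ⟨ho, h⟩
    · rw [Nat.totient_mul_of_prime_of_dvd Nat.prime_two he.two_dvd, h]
    · rw [Nat.totient_mul_of_prime_of_not_dvd Nat.prime_two (by
        intro hd
        exact (Nat.not_even_iff_odd.2 ho) (even_iff_two_dvd.2 hd)), h]
      simp
  rw [h4]
  have h5 : 2 * q - 1 - 1 = 2 * (q - 1) := by omega
  rw [h5]
  ring

end Pool.Agent.Helper18.PS
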