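import Pool.Agent.Helper18.PS.St
import Pool.Agent.Helper18.PS.Conv
import Pool.Agent.Helper11.PS.M_FIN

/-!
# Project PS (MP_4afa08_nt): the first theorem with a large prime `q`
Copies of the modules PAI (helper27), CLS (helper33) and FIN (helper11) which keep the information that the prime `2 q - 1` is the prime `p > y` of the proof.
-/

set_option autoImplicit false

noncomputable section

namespace Pool.Agent.Helper18.PS

open Finset Filter Topology
open Nat (totient)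

/-- the three conditions on `(m, q)` -/
def Cd (m q : ℕ) : Prop := ¬ (2 * q - 1) ∣ m ∧ ¬ q ∣ sg m ∧
  ((Even (sg m) ∧ totient (sg m) = totient m) ∨ (Odd (sg m) ∧ totient (sg m) = 2 * totient m))

/-- `n` comes from a pair of primes with `q > Y` -/
def PrR (Y : ℝ) (n : ℕ) : Prop := ∃ m q : ℕ, q.Prime ∧ (2 * q - 1).Prime ∧ Y < q ∧ n = m * (2 * q - 1) ∧
  ¬ (2 * q - 1) ∣ m ∧ ¬ q ∣ sg m ∧
  ((Even (sg m) ∧ totient (sg m) = totient m) ∨ (Odd (sg m) ∧ totient (sg m) = 2 * totient m))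

theorem paiS : ∀ z m p A B l : ℕ, 2 ≤ z → 1 ≤ m → p.Prime → ¬ p ∣ m → Dat m p A B → l.Prime → z < l → l ∣ A →
    (∃ q : ℕ, q.Prime ∧ p = 2 * q - 1 ∧ Cd m q) ∨ E5 z (m * p) := by
  intro z m p A B l hz hm hp hpm hD hl hzl hlA
  obtain ⟨hAB, hsq, hiff, heq⟩ := hD
  obtain ⟨A', rfl⟩ := hlA
  have hl2 : 2 < l := lt_of_le_of_lt hz hzl
  have hcop : Nat.Coprime l A' := (Nat.squarefree_mul_iff.1 hsq).1
  have htot : totient (l * A') = (l - 1) * totient A' := by
    rw [Nat.totient_mul hcop, Nat.totient_prime hl]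
  rw [htot] at heq
  have hl1 : 0 < l - 1 := by omega
  have hls : ¬ l ∣ sg m := ((hiff l hl).1 (Dvd.intro _ rfl)).2
  by_cases h2 : A' * B = 2
  · left
    have hp1 : p + 1 = 2 * l := by
      rw [← hAB]
      calc l * A' * B = l * (A' * B) := by ring
        _ = 2 * l := by rw [h2]; ring
    have hpe : p = 2 * l - 1 := by omega
    have hA' : A' ∣ 2 := Dvd.intro _ h2
    have hA2 : A' ≤ 2 := Nat.le_of_dvd (by norm_num) hA'
    refine ⟨l, hl, hpe, hpe ▸ hpm, hls, ?_⟩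
    interval_cases A'
    · omega
    · left
      have hB : B = 2 := by omega
      subst hB
      constructor
      · have h3 : ¬ (2 ∣ l * 1) := by
          rw [mul_one]
          intro h
          have := (Nat.prime_dvd_prime_iff_eq Nat.prime_two hl).1 h
          omega
        have h4 : ¬ (2 ∣ p + 1 ∧ ¬ 2 ∣ sg m) := fun h => h3 ((hiff 2 Nat.prime_two).2 h)
        rw [even_iff_two_dvd]
        by_contra h5
        exact h4 ⟨hp1 ▸ Dvd.intro _ rfl, h5⟩
      · rw [Nat.totient_one, mul_one] at heq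
        obtain ⟨k, hk⟩ : ∃ k, l = k + 1 := ⟨l - 1, by omega⟩
        rw [hk] at heq hl1
        rw [Nat.add_sub_cancel] at heq hl1
        have h3 : totient (sg m) * (2 * k) = totient m * (2 * k) := by
          nlinarith
        exact Nat.eq_of_mul_eq_mul_right (by omega) h3
    · right
      have hB : B = 1 := by omega
      subst hB
      constructor
      · have h3 : 2 ∣ l * 2 := Dvd.intro_left _ rfl
        have h4 := ((hiff 2 Nat.prime_two).1 h3).2
        rw [← Nat.not_even_iff_odd, even_iff_two_dvd]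
        exact h4
      · rw [Nat.totient_two, mul_one] at heq
        obtain ⟨k, hk⟩ : ∃ k, l = k + 1 := ⟨l - 1, by omega⟩
        rw [hk] at heq hl1
        rw [Nat.add_sub_cancel] at heq hl1
        have h3 : totient (sg m) * k = 2 * totient m * k := by
          nlinarith
        exact Nat.eq_of_mul_eq_mul_right hl1 h3
  · right
    refine ⟨m, A', B, l, hm, hzl, ?_, h2, ?_⟩
    · rw [show A' * l * B = l * A' * B by ring, hAB]
      ring
    · calc totient (sg m) * B * totient A' * (l - 1) + 2 * totient m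
          = totient (sg m) * B * ((l - 1) * totient A') + 2 * totient m := by ring
        _ = totient m * (l * A') * B := heq
        _ = totient m * A' * B * l := by ring

theorem clsS (hA : StALG) (hD : StDVD) : ∀ y z n : ℕ, 2 ≤ z → 1 ≤ n → Sol n → PrR ((y : ℝ) / 2) n ∨ (∀ l : ℕ, l.Prime → l ∣ n → l ≤ y) ∨
    (∃ p : ℕ, p.Prime ∧ y < p ∧ p ^ 2 ∣ n) ∨ (∃ p : ℕ, p.Prime ∧ y < p ∧ p ∣ n ∧ ∀ r : ℕ, r.Prime → r ∣ p + 1 → r ≤ z) ∨
    ((∃ p q r : ℕ, p.Prime ∧ q.Prime ∧ r.Prime ∧ z < r ∧ r ∣ p + 1 ∧ r ∣ q - 1 ∧ p * q ∣ n) ∨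
      ∃ p r : ℕ, p.Prime ∧ r.Prime ∧ z < r ∧ r ∣ p + 1 ∧ p * r ^ 2 ∣ n) ∨ E5 z n := by
  intro y z n hz hn hs
  by_cases h1 : ∀ l : ℕ, l.Prime → l ∣ n → l ≤ y
  · exact Or.inr (Or.inl h1)
  · rw [not_forall] at h1
    obtain ⟨p, hp1⟩ := h1
    rw [Classical.not_imp, Classical.not_imp, not_le] at hp1
    obtain ⟨hp, hpn, hyp⟩ := hp1
    by_cases h2 : p ^ 2 ∣ n
    · exact Or.inr (Or.inr (Or.inl ⟨p, hp, hyp, h2⟩))
    · obtain ⟨m, hm⟩ := hpn
      rw [mul_comm] at hm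
      have hpm : ¬ p ∣ m := by
        rintro ⟨k, hk⟩
        exact h2 ⟨k, by rw [hm, hk]; ring⟩
      have hm1 : 1 ≤ m := by
        rcases Nat.eq_zero_or_pos m with h0 | h0
        · rw [h0, zero_mul] at hm
          omega
        · exact h0
      subst hm
      obtain ⟨A, B, hd⟩ := hA m p hm1 hp hpm hs
      by_cases h3 : ∃ l : ℕ, l.Prime ∧ z < l ∧ l ∣ A
      · obtain ⟨l, hl, hzl, hlA⟩ := h3
        rcases paiS z m p A B l hz hm1 hp hpm hd hl hzl hlA with h | h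
        · obtain ⟨q, hq, hpq, hc⟩ := h
          refine Or.inl ⟨m, q, hq, hpq ▸ hp, ?_, by rw [← hpq], hc.1, hc.2.1, hc.2.2⟩
          have h9 : y < 2 * q := by omega
          have h10 : (y : ℝ) < 2 * q := by exact_mod_cast h9
          linarith
        · exact Or.inr (Or.inr (Or.inr (Or.inr (Or.inr h))))
      · have h3' : ∀ l : ℕ, l.Prime → l ∣ A → l ≤ z := by
          intro l hl hlA
          by_contra hc
          exact h3 ⟨l, hl, not_le.1 hc, hlA⟩
        by_cases h4 : ∃ r : ℕ, r.Prime ∧ z < r ∧ r ∣ p + 1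
        · obtain ⟨r, hr, hzr, hrp⟩ := h4
          refine Or.inr (Or.inr (Or.inr (Or.inr (Or.inl ?_))))
          rcases hD z m p A B r hz hm1 hp hd h3' hr hzr hrp with ⟨q, hq, hqm, hrq⟩ | h
          · refine Or.inl ⟨p, q, r, hp, hq, hr, hzr, hrp, hrq, ?_⟩
            rw [mul_comm m p]
            exact mul_dvd_mul_left p hqm
          · refine Or.inr ⟨p, r, hp, hr, hzr, hrp, ?_⟩
            rw [mul_comm m p]
            exact mul_dvd_mul_left p h
        · refine Or.inr (Or.inr (Or.inr (Or.inl ⟨p, hp, hyp, dvd_mul_left p m, ?_⟩)))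
          intro r hr hrp
          by_contra hc
          exact h4 ⟨r, hr, not_le.1 hc, hrp⟩

open Classical in
/-- FIN. -/
theorem finS (hA : StALG) (hD : StDVD) (h1 : StC1) (h2 : StC2) (h3 : StC3) (h4 : StC4) (h5 : StC5) :
    ∃ c : ℝ, 0 < c ∧ ∃ N₀ : ℕ, ∀ N : ℕ, N₀ ≤ N →
      (((Icc 1 N).filter (fun n => ¬ (Sol n ↔ PrR (Real.exp (Real.log N ^ (2 / 3 : ℝ))) n))).card : ℝ) ≤
        N * Real.exp (-(c * Real.log N ^ (1 / 3 : ℝ))) := by
  obtain ⟨C, hC0, y₀, h1⟩ := h1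
  refine ⟨1 / 20, by norm_num, ?_⟩
  have ev : ∀ᶠ t : ℝ in atTop, (1 ≤ t ∧ (y₀ : ℝ) ≤ t) ∧
      14 * C * t ^ 2 * Real.exp (-(1 / 14 * t)) ≤ Real.exp (-(1 / 20 * t)) / 8 ∧
      1 * t ^ 0 * Real.exp (-(1 * t)) ≤ Real.exp (-(1 / 20 * t)) / 8 ∧
      8 * t ^ 0 * Real.exp (-(2 / 5 * t)) ≤ Real.exp (-(1 / 20 * t)) / 8 ∧
      32 * t ^ 6 * Real.exp (-(1 * t)) ≤ Real.exp (-(1 / 20 * t)) / 8 ∧
      36 * t ^ 6 * Real.exp (-(1 * t)) ≤ Real.exp (-(1 / 20 * t)) / 8 := by
    filter_upwards [eventually_ge_atTop (1 : ℝ), eventually_ge_atTop (y₀ : ℝ),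
      Pool.Agent.Helper11.PS.evt (14 * C) (1 / 14) (1 / 20) 2 (by norm_num), Pool.Agent.Helper11.PS.evt 1 1 (1 / 20) 0 (by norm_num),
      Pool.Agent.Helper11.PS.evt 8 (2 / 5) (1 / 20) 0 (by norm_num), Pool.Agent.Helper11.PS.evt 32 1 (1 / 20) 6 (by norm_num),
      Pool.Agent.Helper11.PS.evt 36 1 (1 / 20) 6 (by norm_num)] with t a1 a2 a3 a4 a5 a6 a7
    exact ⟨⟨a1, a2⟩, a3, a4, a5, a6, a7⟩
  have htend : Tendsto (fun N : ℕ => Real.log N ^ (1 / 3 : ℝ)) atTop atTop :=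
    (tendsto_rpow_atTop (by norm_num)).comp
      (Real.tendsto_log_atTop.comp tendsto_natCast_atTop_atTop)
  obtain ⟨N₀, hN₀⟩ := eventually_atTop.mp (htend.eventually ev)
  refine ⟨max N₀ 1, fun N hN => ?_⟩
  have hN1 : 1 ≤ N := le_trans (le_max_right _ _) hN
  obtain ⟨⟨ht1, hty⟩, b1, b2, b3, b4, b5⟩ := hN₀ N (le_trans (le_max_left _ _) hN)
  have hlog0 : 0 ≤ Real.log N := Real.log_natCast_nonneg N
  have ht3 : Real.log N = (Real.log N ^ (1 / 3 : ℝ)) ^ 3 := by
    rw [← Real.rpow_natCast, ← Real.rpow_mul hlog0]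
    norm_num
  obtain ⟨t, htd⟩ : ∃ t, t = Real.log N ^ (1 / 3 : ℝ) := ⟨_, rfl⟩
  have ht2 : Real.log N ^ (2 / 3 : ℝ) = (Real.log N ^ (1 / 3 : ℝ)) ^ 2 := by
    rw [← Real.rpow_natCast, ← Real.rpow_mul hlog0]
    norm_num
  rw [ht2]
  rw [← htd] at ht3 ht1 hty b1 b2 b3 b4 b5 ⊢
  obtain ⟨z, hz⟩ : ∃ z, z = ⌊Real.exp t⌋₊ := ⟨_, rfl⟩
  obtain ⟨L, hL⟩ : ∃ L, L = ⌈6 * t⌉₊ := ⟨_, rfl⟩
  obtain ⟨y, hy⟩ : ∃ y, y = (z + 1) ^ L := ⟨_, rfl⟩
  have ht0 : 0 < t := by linarith
  have hexp2 : 2 ≤ Real.exp t := by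
    have := Real.add_one_le_exp t
    linarith
  have hz2 : 2 ≤ z := by
    rw [hz]
    exact Nat.le_floor (by exact_mod_cast hexp2)
  have hzle : (z : ℝ) ≤ Real.exp t := by rw [hz]; exact Nat.floor_le (Real.exp_pos t).le
  have hzlt : Real.exp t < (z : ℝ) + 1 := by rw [hz]; exact Nat.lt_floor_add_one _
  have hz0 : (0 : ℝ) < z := by
    have : (2 : ℝ) ≤ z := by exact_mod_cast hz2
    linarith
  have hzhalf : Real.exp t / 2 ≤ z := by
    have : (2 : ℝ) ≤ z := by exact_mod_cast hz2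
    linarith
  have hLge : 6 * t ≤ L := by rw [hL]; exact Nat.le_ceil _
  have hLlt : (L : ℝ) < 6 * t + 1 := by rw [hL]; exact Nat.ceil_lt_add_one (by positivity)
  have hlogy : Real.log y = L * Real.log ((z : ℝ) + 1) := by
    rw [hy]
    push_cast
    rw [Real.log_pow]
  have hlz1 : t ≤ Real.log ((z : ℝ) + 1) := by
    rw [Real.le_log_iff_exp_le (by positivity)]
    exact hzlt.le
  have hlz2 : Real.log ((z : ℝ) + 1) ≤ t + 1 := by
    rw [Real.log_le_iff_le_exp (by positivity), Real.exp_add]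
    have h : (2 : ℝ) ≤ Real.exp 1 := by
      have := Real.add_one_le_exp (1 : ℝ)
      linarith
    nlinarith
  have hly1 : 6 * t ^ 2 ≤ Real.log y := by
    rw [hlogy]
    have : 6 * t * t ≤ L * Real.log ((z : ℝ) + 1) :=
      mul_le_mul hLge hlz1 ht0.le (by positivity)
    nlinarith
  have hly2 : Real.log y ≤ 14 * t ^ 2 := by
    rw [hlogy]
    have : L * Real.log ((z : ℝ) + 1) ≤ (6 * t + 1) * (t + 1) :=
      mul_le_mul hLlt.le hlz2 (by linarith) (by positivity)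
    nlinarith
  have hly0 : 0 < Real.log y := by
    have : 0 < 6 * t ^ 2 := by positivity
    linarith
  have hypos : 0 < y := by rw [hy]; positivity
  have hyexp : Real.exp t ≤ y := by
    have h : t ≤ Real.log y := by nlinarith
    rwa [Real.le_log_iff_exp_le (by exact_mod_cast hypos)] at h
  have hyy : y₀ ≤ y := by
    have h : (y₀ : ℝ) ≤ y := by
      have := Real.add_one_le_exp t
      linarith
    exact_mod_cast h
  have hy1 : 1 ≤ y := hypos
  have hNpos : (0 : ℝ) < N := by exact_mod_cast hN1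
  -- the five bounds
  have c1 := h1 y N hyy hN1
  have c2 := h2 y N hy1
  have c3 := h3 y z L N (by omega) (by rw [hy])
  have c4 := h4 z N (by omega) hN1
  have c5 := h5 z N (by omega) hN1
  have hyt : Real.exp (t ^ 2) ≤ (y : ℝ) / 2 := by
    have h6 : Real.exp (6 * t ^ 2) ≤ y := by
      rwa [Real.le_log_iff_exp_le (by exact_mod_cast hypos)] at hly1
    have h7 : Real.exp (6 * t ^ 2) = Real.exp (5 * t ^ 2) * Real.exp (t ^ 2) := by
      rw [← Real.exp_add]
      congr 1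
      ring
    have h8 : 2 ≤ Real.exp (5 * t ^ 2) := by
      have h9 := Real.add_one_le_exp (5 * t ^ 2)
      nlinarith
    have h10 := Real.exp_pos (t ^ 2)
    nlinarith
  have htt : 2 ≤ Real.exp (t ^ 2) := by
    have h9 := Real.add_one_le_exp (t ^ 2)
    nlinarith
  have hsub : (Icc 1 N).filter (fun n => ¬ (Sol n ↔ PrR (Real.exp (t ^ 2)) n)) ⊆
      (((((Icc 1 N).filter (fun n => ∀ l : ℕ, l.Prime → l ∣ n → l ≤ y)) ∪
      ((Icc 1 N).filter (fun n => ∃ p : ℕ, p.Prime ∧ y < p ∧ p ^ 2 ∣ n))) ∪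
      ((Icc 1 N).filter (fun n => ∃ p : ℕ, p.Prime ∧ y < p ∧ p ∣ n ∧
        ∀ r : ℕ, r.Prime → r ∣ p + 1 → r ≤ z))) ∪
      ((Icc 1 N).filter (fun n =>
        (∃ p q r : ℕ, p.Prime ∧ q.Prime ∧ r.Prime ∧ z < r ∧ r ∣ p + 1 ∧ r ∣ q - 1 ∧ p * q ∣ n) ∨
        ∃ p r : ℕ, p.Prime ∧ r.Prime ∧ z < r ∧ r ∣ p + 1 ∧ p * r ^ 2 ∣ n))) ∪
      ((Icc 1 N).filter (fun n => E5 z n)) := by
    intro n hn
    rw [mem_filter] at hn
    obtain ⟨hn1, hsp⟩ := hn
    have hps : PrR (Real.exp (t ^ 2)) n → Sol n := by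
      rintro ⟨m, q, hq, hq1, hYq, hn', hm1, hm2, hm3⟩
      subst hn'
      refine conv m q hq ?_ hq1 hm1 hm2 hm3
      rintro rfl
      norm_num at hYq
      linarith
    have hs : Sol n := by
      by_contra h
      exact hsp ⟨fun h' => absurd h' h, fun h' => absurd (hps h') h⟩
    have hp : ¬ PrR (Real.exp (t ^ 2)) n := fun h => hsp ⟨fun _ => h, fun _ => hs⟩
    have hn1' := (mem_Icc.mp hn1).1
    simp only [mem_union, mem_filter]
    rcases clsS hA hD y z n hz2 hn1' hs with h | h | h | h | h | h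
    · obtain ⟨m, q, hq, hq1, hYq, hrest⟩ := h
      exact absurd ⟨m, q, hq, hq1, lt_of_le_of_lt hyt hYq, hrest⟩ hp
    · exact Or.inl (Or.inl (Or.inl (Or.inl ⟨hn1, h⟩)))
    · exact Or.inl (Or.inl (Or.inl (Or.inr ⟨hn1, h⟩)))
    · exact Or.inl (Or.inl (Or.inr ⟨hn1, h⟩))
    · exact Or.inl (Or.inr ⟨hn1, h⟩)
    · exact Or.inr ⟨hn1, h⟩
  have hcard := le_trans (card_le_card hsub) (le_trans (card_union_le _ _)
    (add_le_add (le_trans (card_union_le _ _) (add_le_add (le_trans (card_union_le _ _)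
      (add_le_add (card_union_le _ _) le_rfl)) le_rfl)) le_rfl))
  have hcard' := (Nat.cast_le (α := ℝ)).mpr hcard
  push_cast at hcard'
  refine le_trans hcard' ?_
  have hexpt : Real.exp (-(1 * t)) = (Real.exp t)⁻¹ := by rw [one_mul, Real.exp_neg]
  -- C1
  have d1 : C * N * Real.log y * Real.exp (-(Real.log N / Real.log y)) ≤
      N * (Real.exp (-(1 / 20 * t)) / 8) := by
    have e1 : Real.exp (-(Real.log N / Real.log y)) ≤ Real.exp (-(1 / 14 * t)) := by
      apply Real.exp_le_exp.mpr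
      have : 1 / 14 * t ≤ Real.log N / Real.log y := by
        rw [le_div_iff₀ hly0, ht3]
        calc 1 / 14 * t * Real.log y ≤ 1 / 14 * t * (14 * t ^ 2) := by gcongr
          _ = t ^ 3 := by ring
      linarith
    calc C * N * Real.log y * Real.exp (-(Real.log N / Real.log y))
        ≤ C * N * (14 * t ^ 2) * Real.exp (-(1 / 14 * t)) := by gcongr
      _ = N * (14 * C * t ^ 2 * Real.exp (-(1 / 14 * t))) := by ring
      _ ≤ _ := by gcongr
  -- C2
  have d2 : (N : ℝ) / y ≤ N * (Real.exp (-(1 / 20 * t)) / 8) := by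
    calc (N : ℝ) / y ≤ N / Real.exp t := by gcongr
      _ = N * (1 * t ^ 0 * Real.exp (-(1 * t))) := by rw [hexpt]; simp [div_eq_mul_inv]
      _ ≤ _ := by gcongr
  -- C3
  have d3 : 2 * N * (((z : ℝ) + 1) ^ 2 * (2 / 3) ^ L) ≤ N * (Real.exp (-(1 / 20 * t)) / 8) := by
    have e1 : ((2 : ℝ) / 3) ^ L ≤ Real.exp (-(12 / 5 * t)) := by
      have e2 : (2 : ℝ) / 3 ≤ Real.exp (-(2 / 5)) := by
        rw [Real.exp_neg, ← one_div, div_le_div_iff₀ (by norm_num) (Real.exp_pos _)]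
        have h9 : Real.exp (2 / 5 : ℝ) ^ 5 ≤ (3 / 2 : ℝ) ^ 5 := by
          rw [← Real.exp_nat_mul]
          have h10 : ((5 : ℕ) : ℝ) * (2 / 5) = 1 + 1 := by norm_num
          rw [h10, Real.exp_add]
          have h11 := Real.exp_one_lt_d9
          have h12 := Real.exp_pos 1
          nlinarith
        have h13 : Real.exp (2 / 5 : ℝ) ≤ 3 / 2 :=
          le_of_pow_le_pow_left₀ (by norm_num) (by norm_num) h9
        linarith
      calc ((2 : ℝ) / 3) ^ L ≤ Real.exp (-(2 / 5)) ^ L := by gcongr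
        _ = Real.exp (L * (-(2 / 5))) := (Real.exp_nat_mul _ _).symm
        _ ≤ _ := by
          apply Real.exp_le_exp.mpr
          nlinarith
    have e3 : ((z : ℝ) + 1) ^ 2 ≤ 4 * Real.exp (2 * t) := by
      have e4 : (z : ℝ) + 1 ≤ 2 * Real.exp t := by linarith
      calc ((z : ℝ) + 1) ^ 2 ≤ (2 * Real.exp t) ^ 2 := by gcongr
        _ = 4 * Real.exp (2 * t) := by
          rw [mul_pow, ← Real.exp_nat_mul]
          norm_num
    calc 2 * N * (((z : ℝ) + 1) ^ 2 * (2 / 3) ^ L)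
        ≤ 2 * N * (4 * Real.exp (2 * t) * Real.exp (-(12 / 5 * t))) := by gcongr
      _ = N * (8 * t ^ 0 * Real.exp (-(2 / 5 * t))) := by
          have : Real.exp (-(2 / 5 * t)) = Real.exp (2 * t) * Real.exp (-(12 / 5 * t)) := by
            rw [← Real.exp_add]
            congr 1
            ring
          rw [this]
          ring
      _ ≤ _ := by gcongr
  -- C4
  have d4 : 4 * N * (1 + Real.log N) ^ 2 / z ≤ N * (Real.exp (-(1 / 20 * t)) / 8) := by
    have e1 : 1 + Real.log N ≤ 2 * t ^ 3 := by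
      rw [ht3]
      have : 1 ≤ t ^ 3 := one_le_pow₀ ht1
      linarith
    calc 4 * N * (1 + Real.log N) ^ 2 / z
        ≤ 4 * N * (2 * t ^ 3) ^ 2 / (Real.exp t / 2) := by gcongr
      _ = N * (32 * t ^ 6 * Real.exp (-(1 * t))) := by
          rw [hexpt]
          field_simp
          ring
      _ ≤ _ := by gcongr
  -- C5
  have d5 : 2 * N / z * (1 + Real.log (2 * N)) ^ 2 ≤ N * (Real.exp (-(1 / 20 * t)) / 8) := by
    have e1 : 1 + Real.log (2 * N) ≤ 3 * t ^ 3 := by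
      rw [Real.log_mul (by norm_num) hNpos.ne', ht3]
      have h : 1 ≤ t ^ 3 := one_le_pow₀ ht1
      have h2 : Real.log 2 ≤ 1 := by
        have := Real.log_two_lt_d9
        linarith
      linarith
    have e0 : 0 ≤ 1 + Real.log (2 * N) := by
      rw [Real.log_mul (by norm_num) hNpos.ne']
      have h2 : 0 ≤ Real.log 2 := Real.log_nonneg (by norm_num)
      linarith
    calc 2 * N / z * (1 + Real.log (2 * N)) ^ 2
        ≤ 2 * N / (Real.exp t / 2) * (3 * t ^ 3) ^ 2 := by gcongr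
      _ = N * (36 * t ^ 6 * Real.exp (-(1 * t))) := by
          rw [hexpt]
          field_simp
          ring
      _ ≤ _ := by gcongr
  have hfin : (0 : ℝ) < N * Real.exp (-(1 / 20 * t)) := by positivity
  have hsum : N * (Real.exp (-(1 / 20 * t)) / 8) = N * Real.exp (-(1 / 20 * t)) / 8 := by ring
  linarith

end Pool.Agent.Helper18.PS
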