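import Pool.Agent.Helper22.PS.M_ALG
import Pool.Agent.Helper62.PS.M_DVD
import Pool.Agent.Helper25.PS.M_C1
import Pool.Agent.Helper69.PS.M_C2
import Pool.Agent.Helper40.PS.M_C3
import Pool.Agent.Helper56.PS.M_C4
import Pool.Agent.Helper83.PS.M_C5
import Pool.Agent.Helper15.AB.M_MT
import Pool.Agent.Helper45.LQ.M_SMT
import Pool.Agent.Helper7.DN.M_RAN
import Pool.Agent.Helper18.PS.Str

/-!
# Project PS (MP_4afa08_nt): the modules together
-/

set_option autoImplicit false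

noncomputable section

namespace Pool.Agent.Helper18.PS

open Finset

theorem c1 : StC1 := Pool.Agent.Helper25.PS.hC1 (Pool.Agent.Helper45.LQ.hSMT Pool.Agent.Helper15.AB.hMT)

theorem c2 : StC2 := Pool.Agent.Helper69.PS.hC2

theorem c3 : StC3 := Pool.Agent.Helper40.PS.hC3 Pool.Agent.Helper7.DN.hRAN

theorem c4 : StC4 := Pool.Agent.Helper56.PS.hC4

theorem c5 : StC5 := Pool.Agent.Helper83.PS.hC5

open Classical in
theorem fin : ∃ c : ℝ, 0 < c ∧ ∃ N₀ : ℕ, ∀ N : ℕ, N₀ ≤ N →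
    (((Icc 1 N).filter (fun n => ¬ (Sol n ↔ PrR (Real.exp (Real.log N ^ (2 / 3 : ℝ))) n))).card : ℝ) ≤
      N * Real.exp (-(c * Real.log N ^ (1 / 3 : ℝ))) :=
  finS Pool.Agent.Helper22.PS.hALG Pool.Agent.Helper62.PS.hDVD c1 c2 c3 c4 c5

end Pool.Agent.Helper18.PS
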