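import Pool.Agent.Helper18.PS.All
import Pool.Agent.Helper40.PS.M_PAQ
import Pool.Agent.Helper77.PS.M_CLQ
import Pool.Agent.Helper5.PS.M_FIQ
import Pool.Agent.Helper24.PS.M_PI2
import Pool.Agent.Helper99.PS.M_TOL
import Pool.Agent.Helper71.PS.M_REC
import Pool.Agent.Helper7.PS.M_SUM
import Pool.Agent.Helper44.PS.M_BOO
import Pool.Agent.Helper2.LM.M_SV
import Pool.Agent.Helper18.TR.Final

/-!
# Project PS (MP_4afa08_nt), second theorem: the modules together
-/

set_option autoImplicit false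

noncomputable section

namespace Pool.Agent.Helper18.PS

open Finset

theorem pi2 : StPI2 := Pool.Agent.Helper24.PS.hPI2 (Pool.Agent.Helper2.LM.hSV Pool.Agent.Helper18.TR.fl) Pool.Agent.Helper15.AB.hMT

theorem clq : StCLQ :=
  Pool.Agent.Helper77.PS.hCLQ Pool.Agent.Helper22.PS.hALG Pool.Agent.Helper40.PS.hPAQ Pool.Agent.Helper62.PS.hDVD

theorem fiq : StFIQ := Pool.Agent.Helper5.PS.hFIQ clq c1 c2 c3 c4 c5

theorem rec : StREC := Pool.Agent.Helper71.PS.hREC fiq Pool.Agent.Helper99.PS.hTOL pi2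

theorem boo : StBOO := Pool.Agent.Helper44.PS.hBOO Pool.Agent.Helper18.PS.rec Pool.Agent.Helper7.PS.hSUM

open Classical in
theorem upper : ∃ C : ℝ, 0 < C ∧ ∀ N : ℕ, 2 ≤ N → (((Icc 1 N).filter (fun n => Sol n)).card : ℝ) ≤
    C * N / Real.log N ^ 2 := by
  obtain ⟨C, hC, h⟩ := boo
  refine ⟨C, hC, fun N hN => ?_⟩
  have h1 : (1 : ℝ) < N := by exact_mod_cast hN
  have hlog : 0 < Real.log N := Real.log_pos h1
  have hcard : (((Icc 1 N).filter (fun n => Sol n)).card : ℝ) ≤ cU N := by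
    unfold cU
    exact_mod_cast card_le_card (fun n hn => by
      rw [mem_filter] at hn ⊢
      exact ⟨hn.1, Or.inl hn.2⟩)
  refine hcard.trans ((h N (by omega)).trans ?_)
  gcongr
  linarith

end Pool.Agent.Helper18.PS
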