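import Pool.Agent.Helper18.PS.St3
import Pool.Agent.Helper18.PS.All

/-!
# Project PS, third theorem: assembly
-/

set_option autoImplicit false

noncomputable section

namespace Pool.Agent.Helper18.PS

open Finset Filter Topology
open Nat (totient)

/-- `n` comes from a pair of primes with `q > Y` and `m ≤ M` -/
def PrRM (M : ℕ) (Y : ℝ) (n : ℕ) : Prop := ∃ m q : ℕ, m ≤ M ∧ q.Prime ∧ (2 * q - 1).Prime ∧ Y < q ∧ n = m * (2 * q - 1) ∧
  ¬ (2 * q - 1) ∣ m ∧ ¬ q ∣ sg m ∧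
  ((Even (sg m) ∧ totient (sg m) = totient m) ∨ (Odd (sg m) ∧ totient (sg m) = 2 * totient m))

theorem small (c : ℝ) (hc : 0 < c) (K : ℝ) (hK : 0 < K) : ∃ N₀ : ℕ, ∀ N : ℕ, N₀ ≤ N →
    Real.exp (-(c * Real.log N ^ (1 / 3 : ℝ))) ≤ 1 / (K * (1 + Real.log N) ^ 2) := by
  have ev : ∀ᶠ t : ℝ in atTop, 1 ≤ t ∧ (4 * K) * t ^ 6 * Real.exp (-(c * t)) ≤ Real.exp (-(0 * t)) / 8 := by
    filter_upwards [eventually_ge_atTop (1 : ℝ), Pool.Agent.Helper11.PS.evt (4 * K) c 0 6 hc] with t a1 a2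
    exact ⟨a1, a2⟩
  have htend : Tendsto (fun N : ℕ => Real.log N ^ (1 / 3 : ℝ)) atTop atTop :=
    (tendsto_rpow_atTop (by norm_num)).comp
      (Real.tendsto_log_atTop.comp tendsto_natCast_atTop_atTop)
  obtain ⟨N₀, hN₀⟩ := eventually_atTop.mp (htend.eventually ev)
  refine ⟨N₀, fun N hN => ?_⟩
  obtain ⟨ht1, b⟩ := hN₀ N hN
  have hlog0 : 0 ≤ Real.log N := Real.log_natCast_nonneg N
  have ht3 : Real.log N = (Real.log N ^ (1 / 3 : ℝ)) ^ 3 := by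
    rw [← Real.rpow_natCast, ← Real.rpow_mul hlog0]
    norm_num
  obtain ⟨t, htd⟩ : ∃ t, t = Real.log N ^ (1 / 3 : ℝ) := ⟨_, rfl⟩
  rw [← htd] at ht3 ht1 b ⊢
  rw [ht3]
  have h0 : Real.exp (-(0 * t)) = 1 := by simp
  rw [h0] at b
  have h1 : (1 + t ^ 3) ^ 2 ≤ 4 * t ^ 6 := by
    have h2 : 1 ≤ t ^ 3 := one_le_pow₀ ht1
    have h3 : (1 + t ^ 3) ≤ 2 * t ^ 3 := by linarith
    calc (1 + t ^ 3) ^ 2 ≤ (2 * t ^ 3) ^ 2 := by gcongr
      _ = 4 * t ^ 6 := by ring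
  have ht0 : 0 < t := by linarith
  rw [le_div_iff₀ (by positivity)]
  calc Real.exp (-(c * t)) * (K * (1 + t ^ 3) ^ 2) ≤ Real.exp (-(c * t)) * (K * (4 * t ^ 6)) := by gcongr
    _ = 4 * K * t ^ 6 * Real.exp (-(c * t)) := by ring
    _ ≤ 1 := by linarith

open Classical in
theorem fam (h3 : StFI3) : ∃ C : ℝ, 0 < C ∧ ∀ M : ℕ, 1 ≤ M → ∃ N₀ : ℕ, ∀ N : ℕ, N₀ ≤ N →
    (((Icc 1 N).filter (fun n => ¬ (Sol n ↔ PrRM M (Real.exp (Real.log N ^ (2 / 3 : ℝ))) n))).card : ℝ) ≤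
      C * N / ((1 + Real.log M) * Real.log N ^ 2) := by
  obtain ⟨C, hC, h3⟩ := h3
  obtain ⟨c, hc, N₁, h1⟩ := fin
  refine ⟨C + 1, by linarith, fun M hM => ?_⟩
  obtain ⟨N₂, h2⟩ := h3 M hM
  have hM0 : 0 ≤ Real.log M := Real.log_natCast_nonneg M
  obtain ⟨N₃, h4⟩ := small c hc (1 + Real.log M) (by linarith)
  refine ⟨max (max N₁ N₂) (max N₃ 2), fun N hN => ?_⟩
  have e1 : N₁ ≤ N := le_trans (le_trans (le_max_left _ _) (le_max_left _ _)) hN
  have e2 : N₂ ≤ N := le_trans (le_trans (le_max_right _ _) (le_max_left _ _)) hN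
  have e3 : N₃ ≤ N := le_trans (le_trans (le_max_left _ _) (le_max_right _ _)) hN
  have e4 : 2 ≤ N := le_trans (le_trans (le_max_right _ _) (le_max_right _ _)) hN
  have hlog : 0 < Real.log N := Real.log_pos (by exact_mod_cast e4)
  have hsub : (Icc 1 N).filter (fun n => ¬ (Sol n ↔ PrRM M (Real.exp (Real.log N ^ (2 / 3 : ℝ))) n)) ⊆
      (Icc 1 N).filter (fun n => ¬ (Sol n ↔ PrR (Real.exp (Real.log N ^ (2 / 3 : ℝ))) n)) ∪
      (Icc 1 N).filter (fun n => PrM M (Real.exp (Real.log N ^ (2 / 3 : ℝ))) n) := by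
    intro n hn
    rw [mem_filter] at hn
    rw [mem_union, mem_filter, mem_filter]
    obtain ⟨hn1, hn2⟩ := hn
    by_cases h5 : Sol n ↔ PrR (Real.exp (Real.log N ^ (2 / 3 : ℝ))) n
    · right
      refine ⟨hn1, ?_⟩
      have hm1 : PrRM M (Real.exp (Real.log N ^ (2 / 3 : ℝ))) n → PrR (Real.exp (Real.log N ^ (2 / 3 : ℝ))) n := by
        rintro ⟨m, q, _, hrest⟩
        exact ⟨m, q, hrest⟩
      have hP : PrR (Real.exp (Real.log N ^ (2 / 3 : ℝ))) n := by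
        by_contra h6
        exact hn2 ⟨fun h => absurd (h5.1 h) h6, fun h => absurd (hm1 h) h6⟩
      have hS : Sol n := h5.2 hP
      obtain ⟨m, q, hq, hq1, hY, hnm, hd1, hd2, hd3⟩ := hP
      have hmM : M < m := by
        by_contra h6
        exact hn2 ⟨fun _ => ⟨m, q, not_lt.1 h6, hq, hq1, hY, hnm, hd1, hd2, hd3⟩, fun _ => hS⟩
      have hq2 := hq.two_le
      refine ⟨m, 2 * q - 1, q, hmM, hnm, hq1, hq, by omega, ?_, ?_⟩
      · rcases hd3 with h6 | h6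
        · exact Or.inl h6.2
        · exact Or.inr h6
      · have h7 : q ≤ 2 * q - 1 := by omega
        have h8 : (q : ℝ) ≤ ((2 * q - 1 : ℕ) : ℝ) := by exact_mod_cast h7
        linarith
    · left
      exact ⟨hn1, h5⟩
  have hcard := (card_le_card hsub).trans (card_union_le _ _)
  have hcard' : (((Icc 1 N).filter (fun n => ¬ (Sol n ↔ PrRM M (Real.exp (Real.log N ^ (2 / 3 : ℝ))) n))).card : ℝ) ≤
      (((Icc 1 N).filter (fun n => ¬ (Sol n ↔ PrR (Real.exp (Real.log N ^ (2 / 3 : ℝ))) n))).card : ℝ) +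
      (((Icc 1 N).filter (fun n => PrM M (Real.exp (Real.log N ^ (2 / 3 : ℝ))) n)).card : ℝ) := by
    exact_mod_cast hcard
  have f1 := h1 N e1
  have f2 := h2 N e2
  have f3 : (N : ℝ) * Real.exp (-(c * Real.log N ^ (1 / 3 : ℝ))) ≤ N * (1 / ((1 + Real.log M) * (1 + Real.log N) ^ 2)) :=
    mul_le_mul_of_nonneg_left (h4 N e3) (Nat.cast_nonneg _)
  have hN0 : (0 : ℝ) ≤ N := Nat.cast_nonneg _
  calc (((Icc 1 N).filter (fun n => ¬ (Sol n ↔ PrRM M (Real.exp (Real.log N ^ (2 / 3 : ℝ))) n))).card : ℝ)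
      ≤ N * (1 / ((1 + Real.log M) * (1 + Real.log N) ^ 2)) + C * N / ((1 + Real.log M) * (1 + Real.log N) ^ 2) := by
        linarith
    _ = (C + 1) * N / ((1 + Real.log M) * (1 + Real.log N) ^ 2) := by
        have : 0 < (1 + Real.log M) * (1 + Real.log N) ^ 2 := by positivity
        field_simp
        ring
    _ ≤ (C + 1) * N / ((1 + Real.log M) * Real.log N ^ 2) := by
        have h9 : 0 < (1 + Real.log M) * Real.log N ^ 2 := by positivity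
        gcongr
        linarith

end Pool.Agent.Helper18.PS
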