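import Pool.Agent.Helper18.PS.All2
import Pool.Agent.Helper18.PS.Fam
import Pool.Agent.Helper31.PS.M_RE3
import Pool.Agent.Helper45.PS.M_SU3
import Pool.Agent.Helper44.PS.M_FI3

/-!
# Project PS (MP_4afa08_nt), third theorem: the modules together
-/

set_option autoImplicit false

noncomputable section

namespace Pool.Agent.Helper18.PS

open Finset

open Classical in
theorem families : ∃ C : ℝ, 0 < C ∧ ∀ M : ℕ, 1 ≤ M → ∃ N₀ : ℕ, ∀ N : ℕ, N₀ ≤ N →
    (((Icc 1 N).filter (fun n => ¬ (Sol n ↔ PrRM M (Real.exp (Real.log N ^ (2 / 3 : ℝ))) n))).card : ℝ) ≤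
      C * N / ((1 + Real.log M) * Real.log N ^ 2) :=
  fam (Pool.Agent.Helper44.PS.hFI3 (Pool.Agent.Helper31.PS.hRE3 pi2) Pool.Agent.Helper45.PS.hSU3 boo)

end Pool.Agent.Helper18.PS
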