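import Pool.Agent.Helper30.LQ.St
import Pool.Agent.Helper94.DN.St

/-!
# Project PS (MP_4afa08_nt): almost all solutions of `φ(σ(n)) = φ(n)` come from pairs of primes `q`, `2 q - 1`
Statements of the modules, with proofs. All modules are independent of each other (assumed statements are hypotheses).

`Sol n`: `n` is a solution. `Pr n`: `n = m (2 q - 1)` with `q`, `2 q - 1` prime, `2 q - 1 ∤ m`, `q ∤ s = σ(m)`, and `s` even, `φ(s) = φ(m)`, or `s` odd, `φ(s) = 2 φ(m)`.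
Let `n = m p` be a solution, `p ∤ m` prime, `A` the product of the primes which divide `p + 1` and not `s`, `B = (p + 1) / A`. Then `φ(s) B φ(A) = φ(m) (A B - 2)`. If a prime `l > z` divides `A = A' l`, this is a linear equation for `l` with coefficients given by `(m, A', B)`, and an identity only if `A' B = 2`, which is `Pr n`.
If all primes of `A` are `≤ z`, then either `p + 1` is `z`-smooth, or a prime `r > z` divides `p + 1`, hence `B`, hence `2 φ(m)`. All exceptional sets are small.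
-/

set_option autoImplicit false

noncomputable section

namespace Pool.Agent.Helper18.PS

open Finset
open Nat (totient)
open Pool.Agent.Helper30.LQ (StSMT)
open Pool.Agent.Helper94.DN (StRAN)

/-- the sum of the divisors -/
abbrev sg (n : ℕ) : ℕ := ArithmeticFunction.sigma 1 n

/-- the solutions -/
def Sol (n : ℕ) : Prop := totient (sg n) = totient n

/-- `n` comes from a pair of primes -/
def Pr (n : ℕ) : Prop := ∃ m q : ℕ, q.Prime ∧ (2 * q - 1).Prime ∧ n = m * (2 * q - 1) ∧ ¬ (2 * q - 1) ∣ m ∧ ¬ q ∣ sg m ∧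
  ((Even (sg m) ∧ totient (sg m) = totient m) ∨ (Odd (sg m) ∧ totient (sg m) = 2 * totient m))

/-- the data of a solution `m p` -/
def Dat (m p A B : ℕ) : Prop := A * B = p + 1 ∧ Squarefree A ∧ (∀ r : ℕ, r.Prime → (r ∣ A ↔ (r ∣ p + 1 ∧ ¬ r ∣ sg m))) ∧
  totient (sg m) * B * totient A + 2 * totient m = totient m * A * B

/-- the exceptional `n` whose prime `l > z` is determined by `(m, A, B)` -/
def E5 (z n : ℕ) : Prop := ∃ m A B l : ℕ, 1 ≤ m ∧ z < l ∧ n + m = m * (A * l * B) ∧ A * B ≠ 2 ∧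
  totient (sg m) * B * totient A * (l - 1) + 2 * totient m = totient m * A * B * l

/-- (ALG, no hypotheses.) PROOF. `σ(m p) = σ(m) (p + 1)`, `φ(m p) = φ(m) (p - 1)` (coprime). Let `s = sg m ≥ 1`, `N = p + 1`, `A = ∏ r ∈ N.primeFactors.filter (¬ r ∣ s), r` (squarefree, `A ∣ N`), `B = N / A`. `(s N).primeFactors` is the disjoint union of `s.primeFactors` and of this filter, so by `Nat.totient_mul_prod_primeFactors`
(`φ(n) ∏ r = n ∏ (r - 1)`) for `s N`, `s`, `A` (`A.primeFactors` is the filter): `φ(s N) rad(s) A = s N ∏_{s} (r - 1) ∏_{A} (r - 1) = N φ(s) rad(s) φ(A)`, so `φ(s N) = B φ(s) φ(A)`; and `φ(m) (p - 1) + 2 φ(m) = φ(m) A B`. -/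
def StALG : Prop := ∀ m p : ℕ, 1 ≤ m → p.Prime → ¬ p ∣ m → Sol (m * p) → ∃ A B : ℕ, Dat m p A B

/-- (PAI, no hypotheses.) PROOF. `A = A' l`, `l ∤ A'` (squarefree), `φ(A) = φ(A') (l - 1)`. If `A' B ≠ 2` then `E5` with `(m, A', B, l)`: `n + m = m (p + 1)`. If `(A', B) = (1, 2)`: `p = 2 l - 1`, `2 ∣ p + 1`, `2 ∤ A = l` (`l > 2`), so `2 ∣ s`; the equation is `2 φ(s) (l - 1) + 2 φ(m) = 2 φ(m) l`, so `φ(s) = φ(m)`; `l ∤ s` as `l ∣ A`.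
If `(A', B) = (2, 1)`: `p = 2 l - 1`, `2 ∣ A`, so `s` is odd, `φ(A) = l - 1`, `φ(s) (l - 1) + 2 φ(m) = 2 φ(m) l`, so `φ(s) = 2 φ(m)`. -/
def StPAI : Prop := ∀ z m p A B l : ℕ, 2 ≤ z → 1 ≤ m → p.Prime → ¬ p ∣ m → Dat m p A B → l.Prime → z < l → l ∣ A →
  Pr (m * p) ∨ E5 z (m * p)

/-- (DVD, no hypotheses.) PROOF. `r ∤ A`, `r ∣ p + 1 = A B`, so `r ∣ B`, and by the equation `r ∣ 2 φ(m)`, `r > 2`, so `r ∣ φ(m) = ∏ q ^ (e - 1) (q - 1)` (`Nat.totient_eq_prod_factorization`): `r ∣ q - 1` for a prime `q ∣ m`, or `r = q`, `e ≥ 2`. -/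
def StDVD : Prop := ∀ z m p A B r : ℕ, 2 ≤ z → 1 ≤ m → p.Prime → Dat m p A B → (∀ l : ℕ, l.Prime → l ∣ A → l ≤ z) →
  r.Prime → z < r → r ∣ p + 1 → (∃ q : ℕ, q.Prime ∧ q ∣ m ∧ r ∣ q - 1) ∨ r ^ 2 ∣ m

/-- (CLS, assume `hA : StALG`, `hP : StPAI`, `hD : StDVD`.) PROOF. If some prime `p > y` divides `n` and `p ^ 2 ∤ n`: `n = m p`, `p ∤ m`, ALG; if a prime `l > z` divides `A`: PAI; otherwise, if a prime `r > z` divides `p + 1`: DVD (`p q ∣ n` as `q ∣ m`; `p r ^ 2 ∣ n`). -/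
def StCLS : Prop := ∀ y z n : ℕ, 2 ≤ z → 1 ≤ n → Sol n → Pr n ∨ (∀ l : ℕ, l.Prime → l ∣ n → l ≤ y) ∨
  (∃ p : ℕ, p.Prime ∧ y < p ∧ p ^ 2 ∣ n) ∨ (∃ p : ℕ, p.Prime ∧ y < p ∧ p ∣ n ∧ ∀ r : ℕ, r.Prime → r ∣ p + 1 → r ≤ z) ∨
  ((∃ p q r : ℕ, p.Prime ∧ q.Prime ∧ r.Prime ∧ z < r ∧ r ∣ p + 1 ∧ r ∣ q - 1 ∧ p * q ∣ n) ∨
    ∃ p r : ℕ, p.Prime ∧ r.Prime ∧ z < r ∧ r ∣ p + 1 ∧ p * r ^ 2 ∣ n) ∨ E5 z n

open Classical in
/-- (C1, assume `hS : StSMT`.) Smooth `n`. PROOF. StSMT with `w = exp 1` (`log w = 1`), `z = y ≥ exp 4`; the constant is `C exp(8 exp 1)`. -/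
def StC1 : Prop := ∃ C : ℝ, 0 < C ∧ ∃ y₀ : ℕ, ∀ y N : ℕ, y₀ ≤ y → 1 ≤ N →
  (((Icc 1 N).filter (fun n => ∀ l : ℕ, l.Prime → l ∣ n → l ≤ y)).card : ℝ) ≤
    C * N * Real.log y * Real.exp (-(Real.log N / Real.log y))

open Classical in
/-- (C2, no hypotheses.) PROOF. For each `p ∈ Ioc y N` at most `N / p ^ 2` multiples of `p ^ 2`; `∑_{p > y} 1 / p ^ 2 ≤ ∑ (1 / (p - 1) - 1 / p) ≤ 1 / y`. -/
def StC2 : Prop := ∀ y N : ℕ, 1 ≤ y →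
  (((Icc 1 N).filter (fun n => ∃ p : ℕ, p.Prime ∧ y < p ∧ p ^ 2 ∣ n)).card : ℝ) ≤ N / y

open Classical in
/-- (C3, assume `hR : StRAN`.) PROOF. For each such `p ≤ N` at most `N / p ≤ 2 N / (p + 1)` multiples; the numbers `p + 1 ≥ (z + 1) ^ L` are in the range of StRAN with `q = z + 1`. -/
def StC3 : Prop := ∀ y z L N : ℕ, 1 ≤ z → (z + 1) ^ L ≤ y →
  (((Icc 1 N).filter (fun n => ∃ p : ℕ, p.Prime ∧ y < p ∧ p ∣ n ∧ ∀ r : ℕ, r.Prime → r ∣ p + 1 → r ≤ z)).card : ℝ) ≤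
    2 * N * (((z : ℝ) + 1) ^ 2 * (2 / 3) ^ L)

open Classical in
/-- (C4, no hypotheses.) PROOF. `p = j r - 1`, `q = i r + 1` with `i, j ∈ Icc 1 N`, `r ∈ Ioc z (N + 1)`; at most `N / (p q) ≤ 2 N / (i j r ^ 2)` of the `n` (`p ≥ j r / 2`), resp. `N / (p r ^ 2) ≤ 2 N / (j r ^ 2)`; `∑_{r > z} 1 / r ^ 2 ≤ 1 / z`, `∑_{j ≤ N} 1 / j ≤ 1 + log N`. -/
def StC4 : Prop := ∀ z N : ℕ, 1 ≤ z → 1 ≤ N →
  (((Icc 1 N).filter (fun n => (∃ p q r : ℕ, p.Prime ∧ q.Prime ∧ r.Prime ∧ z < r ∧ r ∣ p + 1 ∧ r ∣ q - 1 ∧ p * q ∣ n) ∨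
    ∃ p r : ℕ, p.Prime ∧ r.Prime ∧ z < r ∧ r ∣ p + 1 ∧ p * r ^ 2 ∣ n)).card : ℝ) ≤ 4 * N * (1 + Real.log N) ^ 2 / z

open Classical in
/-- (C5, no hypotheses.) PROOF. Choose `(m, A, B, l)` for each such `n`; `m, A, B ≥ 1`, `m A B l = n + m ≤ 2 N` (`m ≤ n`, as `n + m` is a positive multiple of `m`, so is `n`), so `m A B ≤ 2 N / z`. The map to `(m, A, B)` is injective: with `U = φ(s) B φ(A)`, `V = φ(m) A B`, `U (l - 1) + 2 φ(m) = V l` and the same for `l' ≠ l` give `U = V`, then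
`U = 2 φ(m)`, so `A B = 2`: excluded. The number of the triples with `m A B ≤ T = 2 N / z` is at most `∑_{m, A ≤ T} T / (m A) ≤ T (1 + log T) ^ 2`. -/
def StC5 : Prop := ∀ z N : ℕ, 1 ≤ z → 1 ≤ N →
  (((Icc 1 N).filter (fun n => E5 z n)).card : ℝ) ≤ 2 * N / z * (1 + Real.log (2 * N)) ^ 2

open Classical in
/-- (FIN, assume `hC : StCLS`, `h1 : StC1`, `h2 : StC2`, `h3 : StC3`, `h4 : StC4`, `h5 : StC5`.) PROOF. `t = (log N) ^ (1/3)`, `z = ⌊exp t⌋₊`, `L = ⌈6 t⌉₊`, `y = (z + 1) ^ L`. CLS and the five bounds. `log y ≤ (6 t + 1) (t + 1) ≤ 14 t ^ 2`, so C1 `≤ 14 C t ^ 2 exp(- t / 14) N`; C2 `≤ N exp(- t)`; `(2/3) ^ L ≤ exp(- 6 t log(3/2)) ≤ exp(- 12 t / 5)` and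
`(z + 1) ^ 2 ≤ 4 exp(2 t)`: C3 `≤ 8 N exp(- 2 t / 5)`; `z ≥ exp(t) / 2`, `log N = t ^ 3`: C4, C5 `≤ 8 N (3 + t ^ 3) ^ 2 exp(- t)`. Altogether at most `N exp(- t / 20)` for large `N`. -/
def StFIN : Prop := ∃ c : ℝ, 0 < c ∧ ∃ N₀ : ℕ, ∀ N : ℕ, N₀ ≤ N →
  (((Icc 1 N).filter (fun n => Sol n ∧ ¬ Pr n)).card : ℝ) ≤ N * Real.exp (-(c * Real.log N ^ (1 / 3 : ℝ)))

end Pool.Agent.Helper18.PS
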