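import Pool.Agent.Helper18.PS.St
import Pool.Agent.Helper98.LM.St
import Pool.Agent.Helper15.AB.StMid

/-!
# Project PS, second theorem (MP_4afa08_nt): at most `C x / (log x) ^ 2` solutions of `φ(σ(n)) = φ(n)` up to `x`
Statements of the modules, with proofs. All modules are independent of each other (assumed statements are hypotheses).

`UU n`: `n` is a solution, or `σ(n)` is odd and `φ(σ(n)) = 2 φ(n)`. By the structure theorem all but few solutions `n ≤ N` are `m p` with `UU m`, `p = 2 q - 1`, `p`, `q` prime, `p ≥ exp((log N) ^ (2/3))`. With the upper bound sieve for the pairs this gives a recursion for the counting function, which is solved by three bootstrap steps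
(exponents `0`, `2/3`, `4/3`, `2` of the logarithm).
-/

set_option autoImplicit false

noncomputable section

namespace Pool.Agent.Helper18.PS

open Finset
open Nat (totient)
open Pool.Agent.Helper98.LM (StSV)
open Pool.Agent.Helper15.AB (StMT)

/-- the companion solutions -/
def Tol (m : ℕ) : Prop := Odd (sg m) ∧ totient (sg m) = 2 * totient m

/-- both kinds -/
def UU (m : ℕ) : Prop := Sol m ∨ Tol m

open Classical in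
/-- the counting function of `UU` -/
def cU (N : ℕ) : ℕ := ((Icc 1 N).filter UU).card

open Classical in
/-- the number of the primes `p ≤ N` with `(p + 1) / 2` prime -/
def P2 (N : ℕ) : ℕ := ((Icc 1 N).filter (fun p => p.Prime ∧ ∃ q : ℕ, q.Prime ∧ p + 1 = 2 * q)).card

/-- `n = m p` with `UU m` and a large prime `p` of a pair -/
def PrY (Y : ℝ) (n : ℕ) : Prop := ∃ m p q : ℕ, n = m * p ∧ p.Prime ∧ q.Prime ∧ p + 1 = 2 * q ∧ UU m ∧ Y ≤ p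

/-- (PAQ, no hypotheses.) PROOF. As PAI (`Pool/Agent/*/PS/M_PAI.lean`, copy it): `A = A' l`, and if `A' B = 2` then `q = l`, `p + 1 = 2 l` and the two cases are `Sol m` and `Tol m`. -/
def StPAQ : Prop := ∀ z m p A B l : ℕ, 2 ≤ z → 1 ≤ m → p.Prime → ¬ p ∣ m → Dat m p A B → l.Prime → z < l → l ∣ A →
  (∃ q : ℕ, q.Prime ∧ p + 1 = 2 * q ∧ UU m) ∨ E5 z (m * p)

/-- (CLQ, assume `hA : StALG`, `hP : StPAQ`, `hD : StDVD`.) PROOF. As CLS (`Pool/Agent/*/PS/M_CLS.lean`, copy it), with the same prime `p > y`. -/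
def StCLQ : Prop := ∀ y z n : ℕ, 2 ≤ z → 1 ≤ n → Sol n → PrY ((y : ℝ) + 1) n ∨ (∀ l : ℕ, l.Prime → l ∣ n → l ≤ y) ∨
  (∃ p : ℕ, p.Prime ∧ y < p ∧ p ^ 2 ∣ n) ∨ (∃ p : ℕ, p.Prime ∧ y < p ∧ p ∣ n ∧ ∀ r : ℕ, r.Prime → r ∣ p + 1 → r ≤ z) ∨
  ((∃ p q r : ℕ, p.Prime ∧ q.Prime ∧ r.Prime ∧ z < r ∧ r ∣ p + 1 ∧ r ∣ q - 1 ∧ p * q ∣ n) ∨
    ∃ p r : ℕ, p.Prime ∧ r.Prime ∧ z < r ∧ r ∣ p + 1 ∧ p * r ^ 2 ∣ n) ∨ E5 z n

open Classical in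
/-- (FIQ, assume `hC : StCLQ`, `h1 : StC1`, `h2 : StC2`, `h3 : StC3`, `h4 : StC4`, `h5 : StC5`.) PROOF. As FIN (`Pool/Agent/*/PS/M_FIN.lean`, copy it) with the same `t`, `z`, `L`, `y = (z + 1) ^ L`; `y + 1 ≥ exp(t L) ≥ exp(6 t ^ 2) ≥ exp(t ^ 2) = exp((log N) ^ (2/3))` (`z + 1 ≥ exp t`), and finally `exp(- c t) ≤ 1 / (1 + log N) ^ 3` for large `N`. -/
def StFIQ : Prop := ∃ N₀ : ℕ, ∀ N : ℕ, N₀ ≤ N →
  (((Icc 1 N).filter (fun n => Sol n ∧ ¬ PrY (Real.exp (Real.log N ^ (2 / 3 : ℝ))) n)).card : ℝ) ≤ N / (1 + Real.log N) ^ 3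

/-- (PI2, assume `hV : StSV`, `hM : StMT`.) Upper bound sieve. PROOF. StSV with `ε = 1` gives `B` (replace it by `B + 1`); `M = N + 1`, `w = ⌊N ^ (1 / (2 B + 2))⌋₊`, `Q` the primes in `[8, w]`, `S l = {0, (l + 1) / 2}` (two classes, `< l`): a prime `q > w` with `2 q - 1 > w` prime is not in the classes of `S l` (`l ∣ 2 q - 1` iff `q % l = (l + 1) / 2`).
So `P2 N ≤ 2 w + 2 + 2 (N + 1) ∏ (1 - 2 / l) + w ^ B`, and `∏_{8 ≤ l ≤ w} (1 - 2 / l) ≤ exp(- 2 ∑ 1 / l) ≤ C / (log w) ^ 2` by Mertens (StMT; the primes below `8` are bounded), `log w ≥ c log N`. Small `N`: enlarge `C`. -/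
def StPI2 : Prop := ∃ C : ℝ, 0 < C ∧ ∀ N : ℕ, 1 ≤ N → (P2 N : ℝ) ≤ C * N / (1 + Real.log N) ^ 2

open Classical in
/-- (TOL, no hypotheses.) PROOF. If `σ(m)` is odd then `m` is a square or twice a square: for an odd prime `p` with exponent `e` in `m`, `σ(p ^ e) = 1 + p + .. + p ^ e ≡ e + 1` modulo `2` divides `σ(m)` up to coprime factors, so `e` is even. So at most `√N + √(N / 2)` of the `m ≤ N`. (If this is convenient, any bound `C √N` or `C N ^ (2/3)` may be proved first.) -/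
def StTOL : Prop := ∀ N : ℕ, (((Icc 1 N).filter (fun m => Odd (sg m))).card : ℝ) ≤ 2 * Real.sqrt N

/-- (REC, assume `hF : StFIQ`, `hT : StTOL`, `hP : StPI2`.) The recursion. PROOF. `cU N ≤ #{Sol} + #{Tol}`; `#{Tol} ≤ 2 √N ≤ C N / (1 + log N) ^ 3`. For `N ≥ N₀` FIQ: at most `N / (1 + log N) ^ 3` solutions are not `PrY`. If `n ≤ N` is `PrY`, `n = m p`, let `k = Nat.log 2 (N / m)`: `2 ^ k ≤ N / m < 2 ^ (k + 1)`, `p ≤ N / m`, so `exp((log N) ^ (2/3)) ≤ p ≤ 2 ^ (k + 1)`, `m ≤ N / 2 ^ k`;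
the number of the `p` is at most `P2 (2 ^ (k + 1)) ≤ C' 2 ^ k / (1 + k) ^ 2`. Sum over `k` and over the `m ≤ N / 2 ^ k` with `UU m`. For `N < N₀` enlarge `C`. -/
def StREC : Prop := ∃ C : ℝ, 0 < C ∧ ∀ N : ℕ, 1 ≤ N → (cU N : ℝ) ≤ C * N / (1 + Real.log N) ^ 3 +
  C * ∑ k ∈ (range (N + 1)).filter (fun k : ℕ => Real.exp (Real.log N ^ (2 / 3 : ℝ)) ≤ 2 ^ (k + 1) ∧ 2 ^ k ≤ N),
    (cU (N / 2 ^ k) : ℝ) * 2 ^ k / (1 + (k : ℝ)) ^ 2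

/-- (SUM, no hypotheses.) PROOF. `L = log N`, `k log 2 ≤ L` and `k + 1 ≥ L ^ (2/3)` (`2 ^ (k + 1) ≤ e ^ (k + 1)`). (1) `k log 2 ≤ L / 2`: `(1 + L - k log 2) ^ (- a) ≤ (1 + L / 2) ^ (- a) ≤ 4 (1 + L) ^ (- a)` and `∑_{k ≥ K} 1 / (1 + k) ^ 2 ≤ 2 / (K + 1)` with `K + 1 ≥ L ^ (2/3)`, `K ≥ 0`, so `≤ 2 / max(1, L ^ (2/3)) ≤ 4 (1 + L) ^ (- 2/3)`.
(2) `k log 2 > L / 2`: `1 / (1 + k) ^ 2 ≤ 4 / (1 + L) ^ 2`, and `j = ⌊(L - k log 2) / log 2⌋ = ⌊L / log 2⌋ - k` takes each value once (up to a shift), so `∑ (1 + L - k log 2) ^ (- a) ≤ ∑_{j ≤ 2 L + 1} (1 + j log 2) ^ (- a) ≤ 2 ∑_{j ≤ 2 L + 1} (1 + j) ^ (- a) ≤ C (1 + L) ^ (1 - a)` for `a < 1`, `≤ C` for `a > 1`; in both cases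
`(1 + L) ^ (- 2)` times this is at most `C (1 + L) ^ (- (a + 2/3))`. It is enough to do the three values of `a`. -/
def StSUM : Prop := ∀ a : ℝ, (a = 0 ∨ a = 2 / 3 ∨ a = 4 / 3) → ∃ C : ℝ, 0 < C ∧ ∀ N : ℕ, 1 ≤ N →
  ∑ k ∈ (range (N + 1)).filter (fun k : ℕ => Real.exp (Real.log N ^ (2 / 3 : ℝ)) ≤ 2 ^ (k + 1) ∧ 2 ^ k ≤ N),
    (1 + Real.log N - k * Real.log 2) ^ (-a) / (1 + (k : ℝ)) ^ 2 ≤ C * (1 + Real.log N) ^ (-(a + 2 / 3))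

/-- (BOO, assume `hR : StREC`, `hS : StSUM`.) PROOF. Claim for `a = 0, 2/3, 4/3, 2`: `cU N ≤ K N (1 + log N) ^ (- a)` for all `N ≥ 1`. `a = 0`: trivial. Step from `a` to `a + 2/3`: for `2 ^ k ≤ N`, `u = N / 2 ^ k ≥ 1` (real), `⌊u⌋ ≥ u / 2`, so `1 + log ⌊u⌋ ≥ 1 + log u - log 2 ≥ (1 + log u) / 4`, and
`cU ⌊u⌋ 2 ^ k ≤ K u 2 ^ k 4 ^ a (1 + log u) ^ (- a) ≤ 8 K N (1 + log N - k log 2) ^ (- a)`; REC, SUM and `(1 + log N) ^ (- 3) ≤ (1 + log N) ^ (- (a + 2/3))`. -/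
def StBOO : Prop := ∃ C : ℝ, 0 < C ∧ ∀ N : ℕ, 1 ≤ N → (cU N : ℝ) ≤ C * N / (1 + Real.log N) ^ 2

end Pool.Agent.Helper18.PS
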