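import Pool.Agent.Helper18.PS.St2

/-!
# Project PS, third theorem (MP_4afa08_nt): finitely many families `m (2 q - 1)`, `m ≤ M`, give all but `C N / ((1 + log M) (log N) ^ 2)` of the solutions `n ≤ N`
Statements of the modules, with proofs.
-/

set_option autoImplicit false

noncomputable section

namespace Pool.Agent.Helper18.PS

open Finset
open Nat (totient)

/-- `n = m p` with `m > M`, `UU m` and a large prime `p` of a pair -/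
def PrM (M : ℕ) (Y : ℝ) (n : ℕ) : Prop := ∃ m p q : ℕ, M < m ∧ n = m * p ∧ p.Prime ∧ q.Prime ∧ p + 1 = 2 * q ∧ UU m ∧ Y ≤ p

open Classical in
/-- (RE3, assume `hP : StPI2`.) PROOF. As `cardA`, `P2_le` and the step `hA` of `Pool/Agent/Helper71/PS/M_REC.lean` (copy them): with `k = Nat.log 2 (N / m)` one has `2 ^ k ≤ N / m`, so `M * 2 ^ k ≤ m * 2 ^ k ≤ N`. -/
def StRE3 : Prop := ∃ C : ℝ, 0 < C ∧ ∀ M N : ℕ, 1 ≤ M → 1 ≤ N →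
  (((Icc 1 N).filter (fun n => PrM M (Real.exp (Real.log N ^ (2 / 3 : ℝ))) n)).card : ℝ) ≤
    C * ∑ k ∈ (range (N + 1)).filter (fun k : ℕ => Real.exp (Real.log N ^ (2 / 3 : ℝ)) ≤ 2 ^ (k + 1) ∧ M * 2 ^ k ≤ N),
      (cU (N / 2 ^ k) : ℝ) * 2 ^ k / (1 + (k : ℝ)) ^ 2

/-- (SU3, no hypotheses.) PROOF. `L = log N`, `k + 1 ≥ L ^ (2/3)` (`2 ^ (k + 1) ≤ e ^ (k + 1)`), `L - k log 2 ≥ log M`. (1) `k log 2 ≤ L / 2`: `(1 + L - k log 2) ^ 2 ≥ (1 + L) ^ 2 / 4` and `∑_{k + 1 ≥ L ^ (2/3)} 1 / (1 + k) ^ 2 ≤ 2 / L ^ (2/3)` (`1 / (1 + k) ^ 2 ≤ 2 (1 / (1 + k) - 1 / (2 + k))`):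
at most `8 / (L ^ (2/3) (1 + L) ^ 2)`, and this is at most `1 / ((1 + log M) (1 + L) ^ 2)` times `8` for `N ≥ N₀(M)`. (2) `k log 2 > L / 2`: `(1 + k) ^ 2 ≥ (1 + L) ^ 2 / 4`, and the numbers `x_k = L - k log 2 ≥ log M ≥ 0` are spaced by `log 2`: with `j = ⌊(x_k - log M) / log 2⌋` (injective in `k`), `1 / (1 + x_k) ^ 2 ≤ 1 / (1 + log M + j log 2) ^ 2 ≤ 4 / (1 + log M + j) ^ 2`
(`log 2 ≥ 1 / 2`) and `∑_{j ≥ 0} 1 / (a + j) ^ 2 ≤ 2 / a` for `a = 1 + log M ≥ 1`. Altogether `C = 100` is enough. -/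
def StSU3 : Prop := ∃ C : ℝ, 0 < C ∧ ∀ M : ℕ, 1 ≤ M → ∃ N₀ : ℕ, ∀ N : ℕ, N₀ ≤ N →
  ∑ k ∈ (range (N + 1)).filter (fun k : ℕ => Real.exp (Real.log N ^ (2 / 3 : ℝ)) ≤ 2 ^ (k + 1) ∧ M * 2 ^ k ≤ N),
    1 / ((1 + Real.log N - k * Real.log 2) ^ 2 * (1 + (k : ℝ)) ^ 2) ≤ C / ((1 + Real.log M) * (1 + Real.log N) ^ 2)

open Classical in
/-- (FI3, assume `hR : StRE3`, `hS : StSU3`, `hB : StBOO`.) PROOF. `u = N / 2 ^ k ≥ 1` (real), `⌊u⌋ ≥ u / 2`, so `1 + log ⌊u⌋ ≥ 1 + log u - log 2 ≥ (1 + log u) / 4`, and by BOO `cU ⌊u⌋ 2 ^ k ≤ C u 2 ^ k 16 / (1 + log u) ^ 2 = 16 C N / (1 + log N - k log 2) ^ 2` (see `Pool/Agent/Helper44/PS/M_BOO.lean`); RE3 and SU3. -/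
def StFI3 : Prop := ∃ C : ℝ, 0 < C ∧ ∀ M : ℕ, 1 ≤ M → ∃ N₀ : ℕ, ∀ N : ℕ, N₀ ≤ N →
  (((Icc 1 N).filter (fun n => PrM M (Real.exp (Real.log N ^ (2 / 3 : ℝ))) n)).card : ℝ) ≤
    C * N / ((1 + Real.log M) * (1 + Real.log N) ^ 2)

end Pool.Agent.Helper18.PS
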